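import Pool.Agent.X234.SC.Final

set_option autoImplicit false

/-!
# MP_638395_nt, Q1: the supercongruences for alternating sums weighted by `(4k-1)^m`
-/

namespace Pool.Agent.Results.MP_638395_nt.AllOddWeights

open Pool.Agent.X234.SC

/-- For every odd positive integer `m` there is an integer `c` such that for every odd prime `p`
and every `r ≥ 1` both `S_m((p^r+1)/2)` and `S_m(p^r-1)` are congruent to
`c p^r (-1)^((p-1)r/2)` modulo `p^(r+2)`. -/
theorem result : ∀ m : ℕ, Odd m → ∃ c : ℤ, ∀ p : ℕ, p.Prime → p ≠ 2 → ∀ r : ℕ, 1 ≤ r →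
    CongrMod p (r + 2) (S m ((p ^ r + 1) / 2)) (c * (p : ℚ) ^ r * (-1) ^ ((p - 1) * r / 2)) ∧
    CongrMod p (r + 2) (S m (p ^ r - 1)) (c * (p : ℚ) ^ r * (-1) ^ ((p - 1) * r / 2)) :=
  fun m hm => final m hm

end Pool.Agent.Results.MP_638395_nt.AllOddWeights
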